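import Pool.Agent.Y996.TL.Stm
import Pool.Agent.H492C.P1
import Pool.Agent.H492C.P2
import Pool.Agent.H492C.G4
import Pool.Agent.H988R2.Perc.T12
import Pool.Agent.H988R2.Perc.T14
import Pool.Agent.H988R2.Perc.T17
import Pool.Agent.H988R2.Perc.T19

/-! Project TL, tasks A3, A5, A7. -/

set_option autoImplicit false

namespace Pool.Agent.Y571.TL

open Pool.Agent.H988R2.Perc hiding X
open Pool.Agent.H492C
open Pool.Agent.Y996.TL
open Finset Polynomial

/-- the glued quantity with an arbitrary vector in the upper left strip -/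
noncomputable def GA (A B : List ℂ) (g : St →₀ ℂ) : ℂ :=
  pairG A.length (A.length + 3 + B.length) (Psi (A ++ 1 :: 1 :: 1 :: (B ++ [0])))
    (comb2 ((A.length + 3) / 2) g (up1 B))

theorem GR3_eq (A B : List ℂ) (hA : Odd A.length) :
    GR3 A B = GA A B (Finsupp.mapDomain (St.act A.length) (up1 A)) - GA A B (up1 A) := by
  unfold GR3 pr3 GA
  obtain ⟨a, ha⟩ := hA
  rw [pairG_act (by omega) (by omega), comb2_act_left (by omega)]

theorem GA_smul (A B : List ℂ) (c : ℂ) (g : St →₀ ℂ) : GA A B (c • g) = c * GA A B g := by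
  unfold GA
  rw [comb2_smul_left, pairG_smul_right]

theorem GA_invA (A B : List ℂ) (x : ℂ) (hA : Even A.length) (hB : Odd B.length)
    (hx : x ≠ 0) (g : St →₀ ℂ) :
    GA (x :: A) B g = x^(A.length + B.length + 3) * GA (x⁻¹ :: A) B g := by
  unfold GA
  have h1 : Psi ((x :: A) ++ 1 :: 1 :: 1 :: (B ++ [0])) =
      x^(A.length + B.length + 3) • Psi ((x⁻¹ :: A) ++ 1 :: 1 :: 1 :: (B ++ [0])) := by
    have hodd : Odd (A ++ 1 :: 1 :: 1 :: (B ++ [0])).length := by
      obtain ⟨a, ha⟩ := hA; obtain ⟨b, hb⟩ := hB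
      exact ⟨a + b + 2, by simp; omega⟩
    have := Psi_inv1 x (A ++ 1 :: 1 :: 1 :: (B ++ [0])) hx hodd
    rw [List.cons_append, List.cons_append, this]
    congr 2
    simp; omega
  rw [h1, pairG_smul_left]
  simp only [List.length_cons]

theorem up1_invA (A : List ℂ) (x : ℂ) (hA : Even A.length) (hx : x ≠ 0) :
    up1 (x :: A) = (x⁻¹)^(A.length) • up1 (x⁻¹ :: A) := by
  unfold up1
  have hodd : Odd (A.map (fun x => x⁻¹) ++ [0]).length := by
    obtain ⟨a, ha⟩ := hA
    exact ⟨a, by simp; omega⟩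
  have := Psi_inv1 x⁻¹ (A.map (fun x => x⁻¹) ++ [0]) (inv_ne_zero hx) hodd
  rw [List.map_cons, List.map_cons, List.cons_append, List.cons_append, this]
  congr 2
  simp

theorem inv_A (A B : List ℂ) (x : ℂ) (hA : Even A.length) (hB : Odd B.length) (hx : x ≠ 0) :
    GR3 (x :: A) B = x^(B.length + 3) * GR3 (x⁻¹ :: A) B := by
  have ho : ∀ y : ℂ, Odd (y :: A).length := fun y => by
    rw [List.length_cons]; exact hA.add_one
  have hl : (x⁻¹ :: A).length = (x :: A).length := rfl
  rw [GR3_eq _ _ (ho x), GR3_eq _ _ (ho x⁻¹), hl, up1_invA A x hA hx, Finsupp.mapDomain_smul,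
    GA_smul, GA_smul, GA_invA A B x hA hB hx, GA_invA A B x hA hB hx]
  have h0 : x^A.length ≠ 0 := pow_ne_zero _ hx
  rw [show A.length + B.length + 3 = (B.length + 3) + A.length by ring, pow_add, inv_pow]
  field_simp

theorem GA_invB (A B : List ℂ) (x : ℂ) (hA : Odd A.length) (hB : Even B.length)
    (hx : x ≠ 0) (g : St →₀ ℂ) :
    GA A (B ++ [x]) g = x^(A.length + 3) * GA A (B ++ [x⁻¹]) g := by
  unfold GA up1
  have h1 : Psi (A ++ 1 :: 1 :: 1 :: ((B ++ [x]) ++ [0])) =
      x^(A.length + 3 + B.length) • Psi (A ++ 1 :: 1 :: 1 :: ((B ++ [x⁻¹]) ++ [0])) := by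
    have hev : Even (A ++ 1 :: 1 :: 1 :: B).length := by
      obtain ⟨a, ha⟩ := hA; obtain ⟨b, hb⟩ := hB
      exact ⟨a + b + 2, by simp; omega⟩
    have := Psi_inv0 x (A ++ 1 :: 1 :: 1 :: B) hx hev
    have e : ∀ y : ℂ, A ++ 1 :: 1 :: 1 :: ((B ++ [y]) ++ [0]) = (A ++ 1 :: 1 :: 1 :: B) ++ [y, 0] := by
      intro y; simp
    rw [e, e, this]
    congr 2
    simp; omega
  have h2 : Psi ((B ++ [x]).map (fun x => x⁻¹) ++ [0]) =
      (x⁻¹)^(B.length) • Psi ((B ++ [x⁻¹]).map (fun x => x⁻¹) ++ [0]) := by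
    have hev : Even (B.map (fun x => x⁻¹)).length := by simpa using hB
    have := Psi_inv0 x⁻¹ (B.map (fun x => x⁻¹)) (inv_ne_zero hx) hev
    have e : ∀ y : ℂ, (B ++ [y]).map (fun x => x⁻¹) ++ [0] =
        B.map (fun x => x⁻¹) ++ [y⁻¹, 0] := by
      intro y; simp
    rw [e, e, this]
    congr 2
    simp
  rw [h1, h2, pairG_smul_left, comb2_smul_right, pairG_smul_right]
  simp only [List.length_append, List.length_cons, List.length_nil]
  rw [← mul_assoc]
  congr 1
  rw [inv_pow, pow_add x (A.length + 3)]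
  have : x^B.length ≠ 0 := pow_ne_zero _ hx
  field_simp

theorem a3 : S_A3 := by
  refine ⟨fun A B x hA hB hx _ => inv_A A B x hA hB hx, fun A B x hA hB hx _ => ?_⟩
  rw [GR3_eq _ _ hA, GR3_eq _ _ hA, GA_invB A B x hA hB hx, GA_invB A B x hA hB hx, mul_sub]

theorem GA_pair (A B : List ℂ) (x : ℂ) (hA : Odd A.length) (hB : Odd B.length) (hx : x ≠ 0)
    (g : St →₀ ℂ) : GA A (x :: (q^2 * x) :: B) g =
        fac x (A ++ 1 :: 1 :: 1 :: (B ++ [0])) * fac (q^2 * x)⁻¹ (B.map (fun x => x⁻¹) ++ [0]) *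
          GA A B g := by
  have hq0 := q_ne_zero
  have hq3 := q_cube
  set y' := (q^2 * x)⁻¹ with hy'
  have hy'0 : y' ≠ 0 := inv_ne_zero (mul_ne_zero (pow_ne_zero _ hq0) hx)
  have hxy : x⁻¹ = q^2 * y' := by
    rw [hy', mul_inv, ← mul_assoc, mul_inv_cancel₀ (pow_ne_zero _ hq0), one_mul]
  obtain ⟨k, hk⟩ : ∃ k, A.length + 3 = 2 * k := by
    obtain ⟨m, hm⟩ := hA
    exact ⟨m + 2, by omega⟩
  have hk2 : (A.length + 3) / 2 = k := by omega
  have hul : (A ++ [1, 1, 1]).length = 2 * k := by
    rw [List.length_append]; simpa using hk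
  have hpar : Even ((A ++ [1, 1, 1]).length + (B ++ [0]).length) := by
    rw [hul, List.length_append, List.length_singleton]
    exact (even_two_mul k).add (Odd.add_one hB)
  have hpar' : Even (([] : List ℂ).length + (B.map (fun x => x⁻¹) ++ [0]).length) := by
    rw [List.length_nil, zero_add, List.length_append, List.length_map, List.length_singleton]
    exact Odd.add_one hB
  have r1 := Psi_rec (A ++ [1, 1, 1]) (B ++ [0]) x hpar
  have r2 := Psi_rec [] (B.map (fun x => x⁻¹) ++ [0]) y' hpar'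
  have e1 := Psi_exch [] (B.map (fun x => x⁻¹) ++ [0]) (q^2 * y') y' hpar'
  set G := Psi ([] ++ (q^2 * y') :: y' :: (B.map (fun x => x⁻¹) ++ [0])) with hG
  have hc1 : q * (q^2 * y') - q^2 * y' = (1 - q^2) * y' := by
    linear_combination y' * hq3
  have hc2 : q * y' - q^2 * (q^2 * y') = 0 := by
    linear_combination (-q * y') * hq3
  have hc3 : y' - q^2 * y' = (1 - q^2) * y' := by ring
  rw [hc1, hc2, hc3, zero_smul, zero_add] at e1
  have hne : (1 - q^2) * y' ≠ 0 :=
    mul_ne_zero (sub_ne_zero.2 (Ne.symm q_sq_ne_one)) hy'0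
  have e2 : Psi ([] ++ y' :: (q^2 * y') :: (B.map (fun x => x⁻¹) ++ [0])) =
      Finsupp.mapDomain (St.act ([] : List ℂ).length) G := by
    have := congrArg (fun F => ((1 - q^2) * y')⁻¹ • F) e1
    simp only [smul_smul, inv_mul_cancel₀ hne, one_smul] at this
    exact this
  rw [e2] at r2
  simp only [List.nil_append, List.length_nil] at r2
  rw [hul] at r1
  have t1 : up1 (x :: (q^2 * x) :: B) = G := by
    unfold up1
    rw [hG]
    congr 1
    simp only [List.map_cons, List.cons_append, List.nil_append, ← hxy, ← hy']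
  have t2 : Psi (A ++ 1 :: 1 :: 1 :: ((x :: (q^2 * x) :: B) ++ [0])) =
      fac x (A ++ 1 :: 1 :: 1 :: (B ++ [0])) •
        Finsupp.mapDomain (St.ins (2 * k)) (Psi (A ++ 1 :: 1 :: 1 :: (B ++ [0]))) := by
    have a1 : A ++ 1 :: 1 :: 1 :: ((x :: (q^2 * x) :: B) ++ [0]) =
        (A ++ [1, 1, 1]) ++ x :: (q^2 * x) :: (B ++ [0]) := by simp
    have a2 : A ++ 1 :: 1 :: 1 :: (B ++ [0]) = (A ++ [1, 1, 1]) ++ (B ++ [0]) := by simp
    rw [a1, a2, r1]
  unfold GA
  rw [t1, t2, hk2, pairG_smul_left, mul_assoc]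
  congr 1
  set H := Psi (A ++ 1 :: 1 :: 1 :: (B ++ [0])) with hH
  have s1 : Finsupp.mapDomain (St.ins (2 * k)) H =
      Finsupp.mapDomain (St.act (2 * k)) (Finsupp.mapDomain (St.ins (2 * k)) H) := by
    rw [← Finsupp.mapDomain_comp]
    congr 1
    funext R
    exact (St.act_ins_self (2 * k) R).symm
  have hlen : A.length + 3 + (x :: (q^2 * x) :: B).length = 2 * k + B.length + 2 := by
    simp only [List.length_cons]
    omega
  have hlen' : A.length + 3 + B.length = 2 * k + B.length := by omega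
  have hBpos : 1 ≤ B.length := hB.pos
  have e3 : St.up (2 * k) (A.length) = A.length := by
    unfold St.up
    rw [if_pos (by omega)]
  have e4 : St.up (2 * k) (2 * k + B.length) = 2 * k + B.length + 2 := by
    unfold St.up
    rw [if_neg (by omega)]
  have e5 := pairG_ins (p := A.length) (r := 2 * k + B.length) (i := 2 * k) (even_two_mul k) H
    (comb2 k g (up1 B))
  rw [e3, e4] at e5
  have e6 := comb2_act_right k 0 g G
  rw [zero_add] at e6
  have e7 : up1 B = Psi (B.map (fun x => x⁻¹) ++ [0]) := rfl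
  rw [hlen, hlen', s1, pairG_act (by omega) (by omega), ← e6, r2, comb2_smul_right,
    pairG_smul_right, comb2_ins_right, ← e7, e5]

theorem a5 : S_A5 := by
  intro A B x hA hB hx _
  rw [GR3_eq _ _ hA, GR3_eq _ _ hA, GA_pair A B x hA hB hx, GA_pair A B x hA hB hx, mul_sub]

theorem GA_poly (A B : List ℂ) (hA : Odd A.length) (hB : Even B.length) (g : St →₀ ℂ) :
    ∃ P : ℂ[X], P.natDegree ≤ 2 * B.length + 3 + A.length ∧
        (∀ t, t ≠ 0 → P.eval t = t^B.length * GA A (B ++ [t]) g) ∧ P.eval 0 = 0 := by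
  classical
  obtain ⟨S, h1, h2, h3⟩ := g4_supp (A.length + 3 + (B.length + 2)) A.length (B.length + 2)
  obtain ⟨P, hP, hP'⟩ := g4_poly (A.length) (A.length + 3 + (B.length + 1)) ((A.length + 3) / 2)
    (f := fun t => Psi ((A ++ 1 :: 1 :: 1 :: B) ++ t :: [0]))
    (g := fun _ => g)
    (h := fun t => Psi (B.map (fun x => x⁻¹) ++ t :: [0])) (S := S ∪ g.support)
    (d1 := A.length + B.length + 3) (d2 := 0) (d3 := B.length)
    (fun t => (h1 _ (by simp; ring)).trans subset_union_left) (fun _ => subset_union_right)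
    (fun _ => (h3 _ (by simp)).trans subset_union_left)
    (fun R => by
      obtain ⟨P, hP, hP'⟩ := g4_pd (A ++ 1 :: 1 :: 1 :: B) [0] (by
        simp only [List.length_append, List.length_nil, List.length_cons]
        obtain ⟨a, ha⟩ := hA
        obtain ⟨b, hb⟩ := hB
        exact ⟨a + b + 3, by omega⟩) R
      refine ⟨P, ?_, hP'⟩
      simp only [List.length_append, List.length_nil, List.length_cons] at hP
      omega)
    (fun R => g4_const _ R)
    (fun R => by
      obtain ⟨P, hP, hP'⟩ := g4_pd (B.map (fun x => x⁻¹)) [0] (by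
        simp only [List.length_nil, List.length_cons, List.length_map]
        obtain ⟨a, ha⟩ := hB
        exact ⟨a + 1, by omega⟩) R
      refine ⟨P, ?_, hP'⟩
      simp only [List.length_nil, List.length_cons, List.length_map] at hP
      omega)
  refine ⟨P, by omega, fun t ht => ?_, ?_⟩
  · rw [← hP' t]
    have e := Psi_inv0 t (B.map (fun x => x⁻¹)) ht (by
      rw [List.length_map]; exact hB)
    rw [List.length_map] at e
    rw [e, g4_smul_right, g4_pair_smul]
    unfold GA up1
    simp only [List.length_append, List.length_cons, List.length_nil, List.map_append, List.map_cons,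
      List.map_nil, List.append_assoc, List.cons_append, List.nil_append]
  · rw [← hP' 0]
    have r1 := Psi_rec (A ++ 1 :: 1 :: 1 :: B) [] 0 (by
      simp only [List.length_append, List.length_nil, List.length_cons]
      obtain ⟨a, ha⟩ := hA
      obtain ⟨b, hb⟩ := hB
      exact ⟨a + b + 2, by omega⟩)
    have r2 := Psi_rec (B.map (fun x => x⁻¹)) [] 0 (by
      simp only [List.length_nil, List.length_map]
      exact hB)
    rw [mul_zero, List.append_nil] at r1 r2
    rw [r1, r2]
    rw [g4_tri (A.length) (A.length + 3 + (B.length + 1)) ((A.length + 3) / 2) _ _ _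
      (subset_refl _) (subset_refl _) (subset_refl _)]
    refine Finset.sum_eq_zero (fun R hR => Finset.sum_eq_zero (fun R1 _ => Finset.sum_eq_zero
      (fun R2 hR2 => ?_)))
    have hR' : ∃ T : St, R = St.ins (A ++ 1 :: 1 :: 1 :: B).length T := by
      have := Finsupp.support_smul hR
      have := Finsupp.mapDomain_support this
      rw [Finset.mem_image] at this
      obtain ⟨T, _, hT⟩ := this
      exact ⟨T, hT.symm⟩
    have hR2' : ∃ T : St, R2 = St.ins (B.map (fun x => x⁻¹)).length T := by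
      have := Finsupp.support_smul hR2
      have := Finsupp.mapDomain_support this
      rw [Finset.mem_image] at this
      obtain ⟨T, _, hT⟩ := this
      exact ⟨T, hT.symm⟩
    obtain ⟨T, rfl⟩ := hR'
    obtain ⟨T2, rfl⟩ := hR2'
    have hz : g4c (A.length) (A.length + 3 + (B.length + 1)) ((A.length + 3) / 2)
        (St.ins (A ++ 1 :: 1 :: 1 :: B).length T) R1 (St.ins (B.map (fun x => x⁻¹)).length T2) = 0 := by
      unfold g4c
      rw [if_neg]
      obtain ⟨a, ha⟩ := hA
      have hk : (A.length + 3) / 2 = a + 2 := by omega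
      rw [hk]
      refine g4_isol (by omega) _ _ ?_ ?_
      · intro x hx
        have hx' : x = A.length + 3 + (B.length + 1) ∨ (x % 2 = 1 ∧
          (A.length + 3 + (B.length + 1)) % 2 = 1 ∧ x ≠ (A ++ 1 :: 1 :: 1 :: B).length + 1 ∧
          A.length + 3 + (B.length + 1) ≠ (A ++ 1 :: 1 :: 1 :: B).length + 1 ∧ _) := hx
        rcases hx' with h | ⟨_, _, _, h, _⟩
        · exact h
        · exfalso
          apply h
          simp only [List.length_append, List.length_cons]
          ring
      · intro x hx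
        have hx' : x = A.length + 3 + (B.length + 1) ∨
          (x < 2 * (a + 2) ∧ A.length + 3 + (B.length + 1) < 2 * (a + 2) ∧
            R1.rel x (A.length + 3 + (B.length + 1))) ∨
          (2 * (a + 2) ≤ x ∧ 2 * (a + 2) ≤ A.length + 3 + (B.length + 1) ∧
            (St.ins (B.map (fun x => x⁻¹)).length T2).rel (x - 2 * (a + 2))
              (A.length + 3 + (B.length + 1) - 2 * (a + 2))) := hx
        rcases hx' with h | ⟨_, h, _⟩ | ⟨h1, h2, h⟩
        · exact h
        · omega
        · have h' : x - 2 * (a + 2) = A.length + 3 + (B.length + 1) - 2 * (a + 2) ∨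
            ((x - 2 * (a + 2)) % 2 = 1 ∧ (A.length + 3 + (B.length + 1) - 2 * (a + 2)) % 2 = 1 ∧
              x - 2 * (a + 2) ≠ (B.map (fun x => x⁻¹)).length + 1 ∧
              A.length + 3 + (B.length + 1) - 2 * (a + 2) ≠ (B.map (fun x => x⁻¹)).length + 1 ∧ _) := h
          rcases h' with h | ⟨_, _, _, h, _⟩
          · omega
          · exfalso
            apply h
            rw [List.length_map]
            omega
    rw [hz, mul_zero]

theorem a7 : S_A7 := by
  intro A B hA hB _
  obtain ⟨P, h1, h2, h3⟩ := GA_poly A B hA hB (Finsupp.mapDomain (St.act A.length) (up1 A))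
  obtain ⟨P', h1', h2', h3'⟩ := GA_poly A B hA hB (up1 A)
  refine ⟨P - P', (Polynomial.natDegree_sub_le _ _).trans (max_le h1 h1'), ?_, ?_⟩
  · intro t ht
    rw [Polynomial.eval_sub, h2 t ht, h2' t ht, GR3_eq _ _ hA, mul_sub]
  · rw [Polynomial.eval_sub, h3, h3', sub_self]

end Pool.Agent.Y571.TL
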