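import Pool.Agent.Y996.TL.Stm
import Pool.Agent.H988R2.Perc.T16
import Pool.Agent.H988R2.Perc.T25
import Pool.Agent.H980R3.Slit.Bridge31

/-! Project TL, tasks G, F, H. -/

set_option autoImplicit false

namespace Pool.Agent.Y571.TL

open Pool.Agent.H988R2.Perc hiding X
open Pool.Agent.H492C
open Pool.Agent.Y996.TL
open Pool.Agent.H980R3.Slit (psi1)
open Finset Polynomial

theorem good_sub {f g : List ℂ → List ℂ → ℂ} (hf : Good f) (hg : Good g) :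
    Good (fun A B => f A B - g A B) where
  swA := by
    intro u v B x y h1 h2 h3 h4 h5
    change f _ _ - g _ _ = f _ _ - g _ _
    rw [hf.swA u v B x y h1 h2 h3 h4 h5, hg.swA u v B x y h1 h2 h3 h4 h5]
  swB := by
    intro A u v x y h1 h2 h3 h4 h5
    change f _ _ - g _ _ = f _ _ - g _ _
    rw [hf.swB A u v x y h1 h2 h3 h4 h5, hg.swB A u v x y h1 h2 h3 h4 h5]
  invA := by
    intro A B x h1 h2 h3 h4
    change f _ _ - g _ _ = _ * (f _ _ - g _ _)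
    rw [hf.invA A B x h1 h2 h3 h4, hg.invA A B x h1 h2 h3 h4, mul_sub]
  invB := by
    intro A B x h1 h2 h3 h4
    change f _ _ - g _ _ = _ * (f _ _ - g _ _)
    rw [hf.invB A B x h1 h2 h3 h4, hg.invB A B x h1 h2 h3 h4, mul_sub]
  pairA := by
    intro A B x h1 h2 h3 h4
    change f _ _ - g _ _ = _ * (f _ _ - g _ _)
    rw [hf.pairA A B x h1 h2 h3 h4, hg.pairA A B x h1 h2 h3 h4, mul_sub]
  pairB := by
    intro A B x h1 h2 h3 h4
    change f _ _ - g _ _ = _ * (f _ _ - g _ _)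
    rw [hf.pairB A B x h1 h2 h3 h4, hg.pairB A B x h1 h2 h3 h4, mul_sub]
  polyA := by
    intro A B h1 h2 h3
    obtain ⟨P, hP, hP', hP0⟩ := hf.polyA A B h1 h2 h3
    obtain ⟨Q, hQ, hQ', hQ0⟩ := hg.polyA A B h1 h2 h3
    refine ⟨P - Q, (natDegree_sub_le P Q).trans (max_le hP hQ), ?_, ?_⟩
    · intro t ht
      rw [eval_sub, hP' t ht, hQ' t ht, mul_sub]
    · rw [eval_sub, hP0, hQ0, sub_zero]
  polyB := by
    intro A B h1 h2 h3
    obtain ⟨P, hP, hP', hP0⟩ := hf.polyB A B h1 h2 h3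
    obtain ⟨Q, hQ, hQ', hQ0⟩ := hg.polyB A B h1 h2 h3
    refine ⟨P - Q, (natDegree_sub_le P Q).trans (max_le hP hQ), ?_, ?_⟩
    · intro t ht
      rw [eval_sub, hP' t ht, hQ' t ht, mul_sub]
    · rw [eval_sub, hP0, hQ0, sub_zero]

theorem g (a1 : S_A1) (a2 : S_A2) (a3 : S_A3) (a4 : S_A4) (a5 : S_A5) (a6 : S_A6) (a7 : S_A7)
    (r1 : S_R1) (r2 : S_R2) (r3 : S_R3) : S_G :=
  good_sub ⟨a1, a2, a3.1, a3.2, a4, a5, a6, a7⟩
    ⟨r1.1, r1.2.1, r1.2.2.1, r1.2.2.2, r2.1, r2.2, r3.1, r3.2⟩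

theorem f (hG : S_G) (hB1 : S_B11) (hB3 : S_B33) (hU : S_U) (h8 : S_A8) (h9 : S_A9)
    (h10 : S_A10) : S_F := by
  intro A B hA hB' h0
  have h := hU (fun A B => GR3 A B - RH3 A B) hG
    (hB1 _ hG (fun y hy => sub_eq_zero.2 (h8 y hy)) (fun x hx => sub_eq_zero.2 (h9 x hx)))
    (fun h13 h31 => hB3 _ hG h13 h31
      (fun x y w hx hy hw => sub_eq_zero.2 (h10 x y w hx hy hw))) A B hA hB' h0
  exact sub_eq_zero.1 h

theorem mass_psi1 (n : ℕ) : mass (psi1 (2*n+1)) = q^((n+1)*n) * (chi (2*n+1) : ℂ) :=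
  Z_ones_zero n

theorem h (hF : S_F) : S_H := by
  intro a b ha hb
  obtain ⟨m, hm⟩ := ha
  obtain ⟨n, hn⟩ := hb
  subst hm
  subst hn
  rw [hF (List.replicate (2*m+1) 1) (List.replicate (2*n+1) 1) (by simp) (by simp) (by
    intro z hz
    rcases List.mem_append.mp hz with h | h
    · rw [List.eq_of_mem_replicate h]; exact one_ne_zero
    · rw [List.eq_of_mem_replicate h]; exact one_ne_zero)]
  have e1 : List.replicate (2*m+1) (1:ℂ) ++ [1] = List.replicate (2*(m+1)) 1 := by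
    rw [← List.replicate_succ']
    rfl
  have e2 : List.replicate (2*n+1) (1:ℂ) ++ [1] = List.replicate (2*(n+1)) 1 := by
    rw [← List.replicate_succ']
    rfl
  have e3 : List.replicate (2*m+1) (1:ℂ) ++ 1 :: 1 :: List.replicate (2*n+1) 1 =
      List.replicate (2*(m+n+2)) 1 := by
    have : (1:ℂ) :: 1 :: List.replicate (2*n+1) 1 = List.replicate (2*n+3) 1 := rfl
    rw [this, ← List.replicate_add]
    congr 1
    ring
  unfold RH3
  rw [e1, e2, e3, Z_ones, Z_ones, Z_ones]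
  have m1 : mass (psi1 (2*m+1 + (2*n+1) + 3)) =
      q^((m+n+2+1)*(m+n+2)) * (chi (2*(m+n+2)+1) : ℂ) := by
    have : 2*m+1 + (2*n+1) + 3 = 2*(m+n+2)+1 := by ring
    rw [this]
    exact mass_psi1 (m+n+2)
  rw [m1, mass_psi1, mass_psi1]
  simp only [List.prod_replicate, one_pow, one_zpow, mul_one, List.length_replicate]
  unfold form3
  have c1 : 2*m+1 + (2*n+1) + 2 = 2*(m+n+2) := by ring
  have c2 : 2*m+1 + (2*n+1) + 3 = 2*(m+n+2)+1 := by ring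
  have c3 : 2*n+1+1 = 2*(n+1) := by ring
  have c4 : 2*m+1+1 = 2*(m+1) := by ring
  rw [c1, c2, c3, c4]
  have h1 : (chi (2*m+1) : ℂ) ≠ 0 := by exact_mod_cast (chi_pos (2*m+1)).ne'
  have h2 : (chi (2*n+1) : ℂ) ≠ 0 := by exact_mod_cast (chi_pos (2*n+1)).ne'
  have h3 : (chi (2*(m+n+2)+1) : ℂ) ≠ 0 := by exact_mod_cast (chi_pos (2*(m+n+2)+1)).ne'
  push_cast
  have hq : (q^(2*(m+n+2)) * q^((m+1)*m) * q^((n+1)*n) *
      q^((m+n+2)*(m+n+1)) : ℂ) =
      q^((m+n+2+1)*(m+n+2)) * q^((m+1)*m) * q^((n+1)*n) := by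
    rw [← pow_add, ← pow_add, ← pow_add, ← pow_add, ← pow_add]
    congr 1
    ring
  generalize q^(2*(m+n+2)) = Q1 at *
  generalize q^((m+n+2)*(m+n+1)) = Q4 at *
  generalize q^((m+n+2+1)*(m+n+2)) = Q5 at *
  generalize q^((m+1)*m) = Q6 at *
  generalize q^((n+1)*n) = Q7 at *
  field_simp
  linear_combination ((chi (2*(m+1)) : ℂ) * (chi (2*(n+1)) : ℂ) * (chi (2*(m+n+2)) : ℂ)) * hq

theorem mass_ne1 (n : ℕ) (hn : Odd n) : mass (psi1 n) ≠ 0 :=
  Pool.Agent.H980R3.Slit.psi1_mass_ne n hn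

end Pool.Agent.Y571.TL
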